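import Pool.Agent.H73.MR.Fin

/-!
# The modular Schanuel conjecture with derivatives for all tuples in one imaginary quadratic extension of `ℚ(S)`

Let `S` be a set of real numbers such that every finite subset `{ξ_1, …, ξ_m}` has extremely good simultaneous rational
approximations `p_i / q` (better than `exp (-q ^ κ)` for every `κ`), `ξ_k` being much better approximated than `ξ_i` for
`i < k`. A comeagre set of `m`-tuples of real numbers has this property, and there is an explicit set `S` with the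
cardinality of the continuum. Let `K = ℚ(S)` and let `L = K(δ)` be a quadratic extension of `K`, for instance `L = K(i)`.
Let `z_0, …, z_n` be **any** points of `L` in the upper half-plane which are not CM points and are pairwise inequivalent
under `GL₂⁺(ℚ)`. We prove:

* the `3 n + 2` numbers `j(z_i)`, `T(z_i)` and `Δ(z_i) / Δ(z_0)`, `i ≥ 1`, are algebraically independent over `K`, where
  `T = (E₂ - 3 / (π Im z)) E₄ E₆ / Δ`;
* `3 n + 2` of the `3 (n + 1)` numbers `j(z_i)`, `j'(z_i)`, `j''(z_i)` are algebraically independent over `K`;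
  consequently the field generated by the `z_i`, `j(z_i)`, `j'(z_i)`, `j''(z_i)` has transcendence degree at least
  `3 n + 2` plus the transcendence degree of the field generated by the `z_i`, which is at least `1`;
* in particular the modular Schanuel conjecture with derivatives is true for every tuple of points of `L`.

Idea of the proof. The points `z_i` are values at `ξ` of algebraic functions `T_i` whose values at rational points are CM
points, and since the `z_i` are in one quadratic extension of `K`, the CM points `T_i(p / q)`, `i = 0, …, n`, are all in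
one imaginary quadratic field: `T_i(p / q) = (a T_0(p / q) + b) / d` with integers `a, b, d` bounded by a power of `q`.
Therefore `Δ(T_i(p / q)) / Δ(T_0(p / q))` is an algebraic number, and we need explicit bounds: for two CM points `τ, τ'`
of one field, roots of integral quadratic polynomials with coefficients at most `H`, some multiple `M Δ(τ') / Δ(τ)`,
`M ≤ H ^ C`, is an algebraic integer of degree at most `H ^ C`, all of whose conjugates are at most `exp (H ^ C)`. They
are obtained from the modular functions `a ^ 12 Δ((a w + b) / d) / Δ(w)`, `a d = N`, `0 ≤ b < d`: the coefficients of the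
polynomial with these roots are polynomials in `j` with integral coefficients, and an automorphism of `ℂ` permutes the
polynomials. The numbers `j` and `T` at CM points are treated as in `QuadraticOverLiouville`. A Liouville estimate and the
hierarchical approximations extend a relation at `ξ` to a neighbourhood, where it contradicts an Ax-Schanuel theorem for
`j` with derivatives, because `j' ^ 6 = (2 π i) ^ 6 Δ j ^ 4 (j - 1728) ^ 3`.
-/

set_option autoImplicit false

open Pool.Agent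

namespace Pool.Agent.Results.MP_ede373_nt.OneQuadraticField

/-- The Eisenstein series `E₂ = 1 - 24 ∑ σ₁(m) q ^ m`. -/
noncomputable def E2 (τ : ℂ) : ℂ :=
  1 - 24 * ∑' m : ℕ, ((ArithmeticFunction.sigma 1 (m + 1) : ℕ) : ℂ) *
    Complex.exp (2 * (Real.pi : ℂ) * Complex.I * ((m : ℂ) + 1) * τ)

/-- The Eisenstein series `E₄ = 1 + 240 ∑ σ₃(m) q ^ m`. -/
noncomputable def E4 (τ : ℂ) : ℂ :=
  1 + 240 * ∑' m : ℕ, ((ArithmeticFunction.sigma 3 (m + 1) : ℕ) : ℂ) *
    Complex.exp (2 * (Real.pi : ℂ) * Complex.I * ((m : ℂ) + 1) * τ)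

/-- The Eisenstein series `E₆ = 1 - 504 ∑ σ₅(m) q ^ m`. -/
noncomputable def E6 (τ : ℂ) : ℂ :=
  1 - 504 * ∑' m : ℕ, ((ArithmeticFunction.sigma 5 (m + 1) : ℕ) : ℂ) *
    Complex.exp (2 * (Real.pi : ℂ) * Complex.I * ((m : ℂ) + 1) * τ)

/-- The modular invariant `j`. -/
noncomputable def J (τ : ℂ) : ℂ := 1728 * E4 τ ^ 3 / (E4 τ ^ 3 - E6 τ ^ 2)

/-- The modular discriminant `Δ`. -/
noncomputable def Delta (τ : ℂ) : ℂ := (E4 τ ^ 3 - E6 τ ^ 2) / 1728

/-- The function `(E₂ - 3 / (π Im τ)) E₄ E₆ / Δ`. -/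
noncomputable def T (τ : ℂ) : ℂ :=
  (E2 τ - 3 / ((Real.pi : ℂ) * (τ.im : ℂ))) * E4 τ * E6 τ / Delta τ

/-- The numbers `j(z)`, `j'(z)`, `j''(z)`. -/
noncomputable def jet (z : ℂ) : Fin 3 → ℂ := ![J z, deriv J z, deriv (deriv J) z]

/-- The numbers `z`, `j(z)`, `j'(z)`, `j''(z)`. -/
noncomputable def numbers (z : ℂ) : Fin 4 → ℂ := ![z, J z, deriv J z, deriv (deriv J) z]

/-- The modular Schanuel conjecture with derivatives for `n` points `z_i`: among the `4 n` numbers `z_i`, `j(z_i)`,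
`j'(z_i)`, `j''(z_i)` there are `3 n` which are algebraically independent over `ℚ`. -/
def Schanuel {n : ℕ} (z : Fin n → ℂ) : Prop :=
  ∃ f : Fin (3 * n) → Fin n × Fin 4, AlgebraicIndependent ℚ fun k => numbers (z (f k).1) (f k).2

/-- `z` is a root of a nonzero quadratic polynomial with integer coefficients. -/
def CM (z : ℂ) : Prop := ∃ a b c : ℤ, (a ≠ 0 ∨ b ≠ 0 ∨ c ≠ 0) ∧ (a : ℂ) * z ^ 2 + b * z + c = 0

/-- `w = (a z + b) / (c z + d)` with rational `a, b, c, d` and `a d - b c > 0`. -/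
def Equivalent (z w : ℂ) : Prop := ∃ a b c d : ℚ, 0 < a * d - b * c ∧ w * (c * z + d) = a * z + b

/-- For every `κ` there are fractions `p_i / q`, `q ≥ 2`, with `0 < |ξ_i - p_i / q| ≤ exp (-q ^ κ)` for all `i` and
`|ξ_k - p_k / q| ≤ |ξ_i - p_i / q| ^ κ` for all `i < k`. -/
def Approximable {m : ℕ} (ξ : Fin m → ℝ) : Prop :=
  ∀ κ : ℕ, ∃ (q : ℕ) (p : Fin m → ℤ), 2 ≤ q ∧
    (∀ i, ξ i ≠ (p i : ℝ) / q ∧ |ξ i - p i / q| ≤ Real.exp (-(q : ℝ) ^ κ)) ∧
    ∀ i k, i < k → |ξ k - p k / q| ≤ |ξ i - p i / q| ^ κ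

/-- Every finite subset can be enumerated in such a way that the tuple is approximable. -/
def UltraLiouville (S : Set ℝ) : Prop :=
  ∀ T : Finset ℝ, (T : Set ℝ) ⊆ S → ∃ (m : ℕ) (ξ : Fin m → ℝ), Set.range ξ = T ∧ Approximable ξ

/-- The field `ℚ(S)` as a subfield of `ℂ`. -/
noncomputable def field (S : Set ℝ) : IntermediateField ℚ ℂ :=
  IntermediateField.adjoin ℚ ((fun x : ℝ => (x : ℂ)) '' S)

/-- Pairwise inequivalent points of the upper half-plane which are in one quadratic extension `ℚ(S)(δ)` of `ℚ(S)` and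
not CM points. -/
structure Admissible (S : Set ℝ) {n : ℕ} (z : Fin n → ℂ) : Prop where
  im : ∀ i, 0 < (z i).im
  quadratic : ∃ δ : ℂ, δ ^ 2 ∈ field S ∧ ∀ i, ∃ a b : field S, z i = a + b * δ
  notCM : ∀ i, ¬ CM (z i)
  inequivalent : ∀ i k, i ≠ k → ¬ Equivalent (z i) (z k)

/-- `e_0 = 1`, `e_(k + 1) = 2 ^ ((k + 2) e_k)`. -/
def e : ℕ → ℕ
  | 0 => 1
  | k + 1 => 2 ^ ((k + 2) * e k)

/-- The number `∑_l 2 ^ (-e_(⌊2 ^ l t⌋))`. -/
noncomputable def number (t : ℝ) : ℝ := ∑' l : ℕ, (1 / 2 : ℝ) ^ e ⌊(2 : ℝ) ^ l * t⌋₊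

/-! ### Comparison of the definitions -/

theorem e_eq (k : ℕ) : e k = NH23.Core.ee k := by
  induction k with
  | zero => rfl
  | succ k ih => rw [e, ih, NH23.Core.ee]

theorem number_eq (t : ℝ) : number t = NH23.Core.lam t := by
  rw [number, NH23.Core.lam]
  exact tsum_congr fun l => by rw [e_eq]

theorem exp_eq (τ : ℂ) (m : ℕ) : Complex.exp (2 * (Real.pi : ℂ) * Complex.I * ((m : ℂ) + 1) * τ) =
    Complex.exp (2 * (Real.pi : ℂ) * Complex.I * τ) ^ (m + 1) := by
  rw [← Complex.exp_nat_mul]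
  congr 1
  push_cast
  ring

theorem E4_eq : E4 = TH21.MS.E4 := by
  funext τ
  rw [E4, TH21.MS.E4]
  simp only [exp_eq]

theorem E6_eq : E6 = TH21.MS.E6 := by
  funext τ
  rw [E6, TH21.MS.E6]
  simp only [exp_eq]

theorem J_eq : J = H73.ML.J := by
  funext τ
  rw [J, H73.ML.J_eq, E4_eq, E6_eq]

theorem E2_eq {τ : ℂ} (h : 0 < τ.im) : E2 τ = EisensteinSeries.E2 ⟨τ, h⟩ := by
  have h1 := (H73.ML.c2_sum ⟨τ, h⟩)
  have h2 := (hasSum_nat_add_iff' 1).2 h1
  have h0 : ∑ i ∈ Finset.range 1, (H73.ML.c2 i : ℂ) * H294ZP.qq 1 ⟨τ, h⟩ ^ i = 1 := by simp [H73.ML.c2]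
  rw [h0] at h2
  have h3 : EisensteinSeries.E2 ⟨τ, h⟩ = 1 + ∑' m : ℕ, (H73.ML.c2 (m + 1) : ℂ) * H294ZP.qq 1 ⟨τ, h⟩ ^ (m + 1) := by
    rw [h2.tsum_eq]
    ring
  rw [h3, E2, sub_eq_add_neg, ← neg_mul, ← tsum_mul_left]
  congr 1
  refine tsum_congr fun m => ?_
  have h4 : H294ZP.qq 1 (⟨τ, h⟩ : UpperHalfPlane) = Complex.exp (2 * (Real.pi : ℂ) * Complex.I * τ) := by
    unfold H294ZP.qq
    simp
  rw [h4, exp_eq, H73.ML.c2]
  push_cast
  simp
  ring

theorem jf_J {τ : ℂ} (h : 0 < τ.im) : Y776.jf τ = J τ := by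
  rw [J_eq]
  exact H73.ML.J_jf h

theorem djf_J {τ : ℂ} (h : 0 < τ.im) : deriv Y776.jf τ = deriv J τ := by
  rw [J_eq]
  exact H73.ML.dJ_djf h

theorem ddjf_J {τ : ℂ} (h : 0 < τ.im) : deriv (deriv Y776.jf) τ = deriv (deriv J) τ := by
  rw [J_eq]
  exact H73.ML.ddJ_ddjf h

theorem Delta_eq (τ : ℂ) : Delta τ = H73.MR.dd τ := by
  rw [Delta, H73.MR.dd, E4_eq, E6_eq]

theorem T_eq {τ : ℂ} (h : 0 < τ.im) (hd : deriv Y776.jf τ ≠ 0) : T τ = H73.ML.Vn τ := by
  have h1 := H73.ML.idt h (by rw [← H73.ML.dJ_djf h]; exact hd)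
  rw [H73.ML.Vn, H73.ML.J_jf h, H73.ML.dJ_djf h, H73.ML.ddJ_ddjf h, ← h1, T, Delta, E2_eq h, E4_eq, E6_eq, H73.ML.es,
    H73.ML.wt_eq]
  have him : ((UpperHalfPlane.im ⟨τ, h⟩ : ℝ) : ℂ) = τ.im := rfl
  rw [him]
  have h0 : TH21.MS.E4 τ ^ 3 - TH21.MS.E6 τ ^ 2 ≠ 0 := TH21.MS.disc_ne ⟨τ, h⟩
  change _ = (EisensteinSeries.E2 ⟨τ, h⟩ - 3 / ((Real.pi : ℂ) * (τ.im : ℂ))) *
    (1728 * (TH21.MS.E4 τ * TH21.MS.E6 τ) / (TH21.MS.E4 τ ^ 3 - TH21.MS.E6 τ ^ 2))
  field_simp

theorem jet_eq {τ : ℂ} (h : 0 < τ.im) :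
    (![Y776.jf τ, deriv Y776.jf τ, deriv (deriv Y776.jf) τ] : Fin 3 → ℂ) = jet τ := by
  rw [jet, jf_J h, djf_J h, ddjf_J h]

/-- **Theorem.** Let `S` be a set of real numbers all of whose finite subsets are approximable, `K = ℚ(S)`, and let
`z_0, …, z_n` be pairwise inequivalent points of the upper half-plane which are in one quadratic extension of `K` and are
not CM points. Then the `3 n + 2` numbers `j(z_i)`, `T(z_i)` (`0 ≤ i ≤ n`), `Δ(z_i) / Δ(z_0)` (`1 ≤ i ≤ n`) are
algebraically independent over `K`. One can choose `3 n + 2` of the `3 (n + 1)` numbers `j(z_i)`, `j'(z_i)`, `j''(z_i)`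
which are algebraically independent over `K` and which remain algebraically independent over `ℚ` if arbitrary
algebraically independent members of `z_0, …, z_n` are added. The modular Schanuel conjecture with derivatives is true
for `z_0, …, z_n`. The set of the numbers `∑_l 2 ^ (-e_(⌊2 ^ l t⌋))`, `1 ≤ t < 2`, is such a set `S`, and it has the
cardinality of the continuum. -/
theorem result :
    (∀ S : Set ℝ, UltraLiouville S → ∀ (n : ℕ) (z : Fin (n + 1) → ℂ), Admissible S z →
      AlgebraicIndependent (field S) (Sum.elim (Sum.elim (fun i => J (z i)) fun i => T (z i))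
        fun i : Fin n => Delta (z i.succ) / Delta (z 0)) ∧
      (∃ f : Fin (3 * n + 2) → Fin (n + 1) × Fin 3, AlgebraicIndependent (field S) (fun k => jet (z (f k).1) (f k).2) ∧
        ∀ (m : ℕ) (g : Fin m → Fin (n + 1)), AlgebraicIndependent ℚ (fun i => z (g i)) →
          AlgebraicIndependent ℚ (Sum.elim (fun k => jet (z (f k).1) (f k).2) fun i => z (g i))) ∧
      Schanuel z) ∧
    UltraLiouville (number '' Set.Ico 1 2) ∧ Cardinal.mk (number '' Set.Ico 1 2) = Cardinal.continuum := by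
  have hS0 : number '' Set.Ico 1 2 = NH23.Core.S0 := by
    rw [NH23.Core.S0]
    congr 1
    funext t
    exact number_eq t
  refine ⟨fun S hS n z hz => ?_, ?_, ?_⟩
  · have hcm : ∀ i, ∀ a b c : ℤ, (a : ℂ) * z i ^ 2 + b * z i + c = 0 → a = 0 := by
      intro i a b c hroot
      by_contra ha
      exact hz.notCM i ⟨a, b, c, Or.inl ha, hroot⟩
    obtain ⟨δ, hδ, hab⟩ := hz.quadratic
    have hab' : ∀ i, ∃ a b : ℂ, a ∈ H73.ML.KS S ∧ b ∈ H73.ML.KS S ∧ z i = a + b * δ := by
      intro i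
      obtain ⟨a, b, h⟩ := hab i
      exact ⟨a, b, a.2, b.2, h⟩
    obtain ⟨h1, ⟨f, hf⟩, h3, h4⟩ := H73.MR.main (z := z) hS hz.im hδ hab' hcm
      (fun i k hik a b c d hdet heq => hz.inequivalent i k hik ⟨a, b, c, d, hdet, heq⟩)
    have hd : ∀ i, deriv Y776.jf (z i) ≠ 0 := fun i => H73.ML.djf_ne (hz.im i) (hcm i)
    have hfun : (fun k => jet (z (f k).1) (f k).2) = fun k => (![Y776.jf (z (f k).1), deriv Y776.jf (z (f k).1),
        deriv (deriv Y776.jf) (z (f k).1)] : Fin 3 → ℂ) (f k).2 := by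
      funext k
      rw [jet_eq (hz.im _)]
    have hfj : AlgebraicIndependent (field S) (fun k => jet (z (f k).1) (f k).2) := by
      rw [hfun]
      exact hf
    have hadd : ∀ (m : ℕ) (g : Fin m → Fin (n + 1)), AlgebraicIndependent ℚ (fun i => z (g i)) →
        AlgebraicIndependent ℚ (Sum.elim (fun k => jet (z (f k).1) (f k).2) fun i => z (g i)) :=
      fun m g hg => H73.ML.add_alg hg (fun i => h3 (g i)) hfj
    refine ⟨?_, ⟨f, hfj, hadd⟩, ?_⟩
    · have e1 : (fun i => J (z i)) = fun i => Y776.jf (z i) := funext fun i => (jf_J (hz.im i)).symm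
      have e2 : (fun i => T (z i)) = fun i => H73.ML.Vn (z i) := funext fun i => T_eq (hz.im i) (hd i)
      have e3 : (fun i : Fin n => Delta (z i.succ) / Delta (z 0)) =
          fun i : Fin n => H73.MR.dd (z i.succ) / H73.MR.dd (z 0) := funext fun i => by rw [Delta_eq, Delta_eq]
      rw [e1, e2, e3]
      exact h1
    · have h0 : AlgebraicIndependent ℚ (fun _ : Fin 1 => z 0) := by
        rw [algebraicIndependent_unique_type_iff]
        exact h4 0
      have h5 := hadd 1 (fun _ => 0) h0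
      have hc : 3 * n + 2 + 1 = 3 * (n + 1) := by ring
      set E : Fin (3 * (n + 1)) ≃ Fin (3 * n + 2) ⊕ Fin 1 := (finCongr hc.symm).trans finSumFinEquiv.symm with hE
      set F : Fin (3 * n + 2) ⊕ Fin 1 → Fin (n + 1) × Fin 4 := Sum.elim (fun k => ((f k).1, (f k).2.succ))
        (fun _ => (0, 0)) with hF
      refine ⟨fun k => F (E k), ?_⟩
      have h6 := h5.comp E E.injective
      convert h6 using 1
      funext k
      simp only [Function.comp_apply]
      generalize E k = s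
      rcases s with k | i
      · simp only [hF, Sum.elim_inl]
        rw [numbers, jet]
        generalize (f k).2 = l
        fin_cases l <;> rfl
      · simp only [hF, Sum.elim_inr]
        rfl
  · rw [hS0]
    exact NH23.Core.hier_S0
  · rw [hS0]
    exact NH23.Core.mk_S0

end Pool.Agent.Results.MP_ede373_nt.OneQuadraticField
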